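import Pool.Agent.W2helper51.OP.Floc
import Pool.Agent.W2helper9.OP.Basic
import Pool.Agent.K3h73.RS.Cheb
import Pool.Agent.K3h36.RS.APPROX0

/-!
# Project OP (helper9): piece CORE
-/

set_option autoImplicit false

open MvPolynomial IsDedekindDomain NumberField Filter

namespace Pool.Agent.W2helper51.OP

open Pool.Agent.W2helper9.OP
open Pool.Agent.Helper819.Dyn (Tuple IsEnd)
open Pool.Agent.K3h30.RS (PosProportion)

/-- four congruences -/
lemma four {E Γ : Type} [Field E] [LinearOrderedCommGroupWithZero Γ] (ν : Valuation E Γ)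
    {D X S : E} {q : ℕ} (hX : ν X ≤ 1) (hD : ν D ≤ 1) (h1 : ν (X - D) < 1)
    (h2 : ν (X ^ q - X) < 1) (h3 : ν (S - D ^ q) < 1) : ν (D - S) < 1 := by
  have h4 := val_pow_sub ν hX hD h1 q
  have e : D - S = -(X - D) + (-(X ^ q - X) + ((X ^ q - D ^ q) - (S - D ^ q))) := by ring
  rw [e]
  refine lt_of_le_of_lt (ν.map_add _ _) (max_lt ?_ (lt_of_le_of_lt (ν.map_add _ _) (max_lt ?_
    (lt_of_le_of_lt (ν.map_sub _ _) (max_lt h4 h3)))))
  · rwa [Valuation.map_neg]
  · rwa [Valuation.map_neg]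

theorem p_core : P_CORE := by
  intro hINT hDIST hCOMP hCMAP hGAE hFIB hLIFT hEXT hFLOC hRES K _ _ N d F γ₁ γ hd hF hγ₁ hγ hav hfree
  obtain ⟨n, L, hfd, hgal, σ, hL, hσ⟩ := hfree
  have hNF : NumberField L := NumberField.of_module_finite K L
  have hγ' : emb γ ≠ 0 := emb_ne_zero hγ
  have hWfin : (W F n γ).Finite :=
    (hFIB K N d F hd hF n (emb γ) hγ').subset fun δ hδ => ⟨hδ.1, hδ.2.1⟩
  have a1 : AA K (GoodA F) := hGAE hINT K N d F hF
  have a2 : AA K fun A => ∀ i ∈ {i : ℕ | i < n},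
      ¬ Cong A.valuation (emb ((mp F)^[i] γ₁)) (emb γ) := by
    refine AA.forall_mem (Set.finite_lt_nat n) fun i _ => ?_
    refine hDIST hINT K N _ _ (emb_ne_zero (iter_ne_zero' hF hγ₁ i)) hγ' ?_
    rw [peq_emb (iter_ne_zero' hF hγ₁ i)]
    exact hav i
  have a3 := hLIFT hINT hGAE hFIB K N d F hd hF n (emb γ) hγ'
  have a4 : AA K fun A => ∀ δ ∈ W F n γ, ∀ y : Fin (N + 1) → L,
      (fun i => (y i : AlgebraicClosure K)) = δ →
      ¬ Cong A.valuation δ (fun i => ((σ (y i) : L) : AlgebraicClosure K)) := by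
    refine AA.forall_mem hWfin fun δ hδ => ?_
    obtain ⟨y, hy⟩ : ∃ y : Fin (N + 1) → L, (fun i => (y i : AlgebraicClosure K)) = δ :=
      ⟨fun i => ⟨δ i, hL δ hδ i⟩, rfl⟩
    obtain ⟨j, hj⟩ := hδ.1
    have hyj : y j = 1 := by
      apply Subtype.ext
      have := congrFun hy j
      rw [this, hj]; rfl
    have hneq : ¬ PEq δ (fun i => ((σ (y i) : L) : AlgebraicClosure K)) := by
      intro hpe
      have h1 := hpe.eq_of_one hj (by simp [hyj])
      apply hσ y (by rw [hy]; exact hδ)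
      funext i
      apply Subtype.ext
      have h2 := congrFun h1 i
      have h3 := congrFun hy i
      rw [← h2, ← h3]
    have hδ0 : δ ≠ 0 := by
      intro h0
      rw [h0] at hj
      exact zero_ne_one hj
    have hσ0 : (fun i => ((σ (y i) : L) : AlgebraicClosure K)) ≠ 0 := by
      intro h0
      have := congrFun h0 j
      simp [hyj] at this
    refine (hDIST hINT K N δ _ hδ0 hσ0 hneq).mono ?_
    intro A hA y' hy'
    have hyy : y' = y := by
      funext i
      apply Subtype.ext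
      have h2 := congrFun hy i
      have h3 := congrFun hy' i
      rw [h2, h3]
    rw [hyy]
    exact hA
  have hall := ((a1.and a2).and a3).and a4
  have hfin : {v : HeightOneSpectrum (𝓞 K) | ∃ A, Over v A ∧ ¬ (((GoodA F A ∧
      ∀ i ∈ {i : ℕ | i < n}, ¬ Cong A.valuation (emb ((mp F)^[i] γ₁)) (emb γ)) ∧
      ∀ x : Fin (N + 1) → AlgebraicClosure K, x ≠ 0 →
      Cong A.valuation ((mp F)^[n] x) (emb γ) →
      ∃ δ : Fin (N + 1) → AlgebraicClosure K, (∃ j, δ j = 1) ∧ PEq ((mp F)^[n] δ) (emb γ) ∧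
        Cong A.valuation x δ) ∧ ∀ δ ∈ W F n γ, ∀ y : Fin (N + 1) → L,
      (fun i => (y i : AlgebraicClosure K)) = δ →
      ¬ Cong A.valuation δ (fun i => ((σ (y i) : L) : AlgebraicClosure K)))}.Finite := hall
  refine Pool.Agent.K3h36.RS.posProportion_mono ?_
    (Pool.Agent.K3h73.RS.t_CHEB K L σ hfin.toFinset)
  rintro v ⟨hvbad, P, hP, hPx⟩
  have hcomap : P.asIdeal.comap (algebraMap (𝓞 K) (𝓞 L)) = v.asIdeal := by
    obtain ⟨v', hv', h⟩ := hP
    rw [Set.mem_singleton_iff] at hv'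
    rw [h, hv']
  obtain ⟨A, hOver, hAL⟩ := hEXT K L v P hcomap
  have hprop := not_not.1 (fun hn => hvbad (by
    rw [Set.Finite.mem_toFinset]
    exact ⟨A, hOver, hn⟩))
  obtain ⟨⟨⟨hgood, hsmall⟩, hlift⟩, hpairs⟩ := hprop
  intro m₀ hm₀
  classical
  have hex : ∃ m, Cong (v.valuation K) ((mp F)^[m] γ₁) γ := ⟨m₀, hm₀⟩
  obtain ⟨m, hm, hmin⟩ : ∃ m, Cong (v.valuation K) ((mp F)^[m] γ₁) γ ∧
      ∀ i < m, ¬ Cong (v.valuation K) ((mp F)^[i] γ₁) γ :=
    ⟨Nat.find hex, Nat.find_spec hex, fun i hi => Nat.find_min hex hi⟩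
  have hmn : n ≤ m := by
    by_contra hlt
    exact hsmall m (not_le.1 hlt) ((hCOMP K N v A hOver _ _).2 hm)
  have hx0 : (mp F)^[m - n] γ₁ ≠ 0 := iter_ne_zero' hF hγ₁ _
  obtain ⟨x, hxdef⟩ : ∃ x, x = (mp F)^[m - n] γ₁ := ⟨_, rfl⟩
  rw [← hxdef] at hx0
  have hxn : (mp F)^[n] (emb x) = emb ((mp F)^[m] γ₁) := by
    rw [iter_emb, hxdef, ← Function.iterate_add_apply, show n + (m - n) = m by omega]
  have hcong : Cong A.valuation ((mp F)^[n] (emb x)) (emb γ) := by
    rw [hxn]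
    exact (hCOMP K N v A hOver _ _).2 hm
  obtain ⟨δ, hδ1, hδ2, hδ3⟩ := hlift (emb x) (emb_ne_zero hx0) hcong
  have hiter : ∀ i, Cong A.valuation ((mp F)^[i] (emb x)) ((mp F)^[i] δ) := by
    intro i
    induction i with
    | zero => exact hδ3
    | succ i ih =>
      rw [Function.iterate_succ_apply', Function.iterate_succ_apply']
      exact hCMAP K N d F A hF.1 hgood _ _ ih
  have hW : δ ∈ W F n γ := by
    refine ⟨hδ1, hδ2, fun i hi hpe => ?_⟩
    have h2 := (hiter i).congr_right hpe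
    rw [iter_emb] at h2
    have h3 := (hCOMP K N v A hOver _ _).1 h2
    rw [hxdef, ← Function.iterate_add_apply] at h3
    exact hmin _ (by omega) h3
  obtain ⟨y, hy⟩ : ∃ y : Fin (N + 1) → L, (fun i => (y i : AlgebraicClosure K)) = δ :=
    ⟨fun i => ⟨δ i, hL δ hW i⟩, rfl⟩
  have hyi : ∀ i, (y i : AlgebraicClosure K) = δ i := fun i => congrFun hy i
  refine hpairs δ hW y hy ?_
  obtain ⟨j, hxj, hδj, hle, hlt⟩ := cong_iff.1 hδ3
  have hyj : y j ≠ 0 := by
    intro h0
    apply hδj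
    rw [← hyi j, h0]; rfl
  have hσj : σ (y j) ≠ 0 := by
    intro h0
    exact hyj ((map_eq_zero σ).1 h0)
  have hD : ∀ i, A.valuation (δ i / δ j) ≤ 1 := fun i => val_le_one_of (hle i) (hlt i)
  refine cong_iff.2 ⟨j, hδj, ?_, hD, fun i => ?_⟩
  · intro h0
    exact hσj (Subtype.ext h0)
  · have hX : emb x i / emb x j = algebraMap K (AlgebraicClosure K) (x i / x j) := by
      rw [map_div₀]; rfl
    have hXle := hle i
    have hXlt := hlt i
    rw [hX] at hXle hXlt
    have hres := hRES K v (x i / x j) ((hOver.le_one_iff _).1 hXle)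
    have hres' := (hOver.lt_one_iff _).2 hres
    rw [map_sub, map_pow] at hres'
    have hfl := hFLOC K L P A σ (Ideal.absNorm v.asIdeal) hAL hPx (y i / y j) (by
      rw [← ValuationSubring.valuation_le_one_iff]
      have e : ((y i / y j : L) : AlgebraicClosure K) = δ i / δ j := by
        rw [← hyi i, ← hyi j]; rfl
      rw [e]
      exact hD i)
    have e1 : ((y i / y j : L) : AlgebraicClosure K) = δ i / δ j := by
      rw [← hyi i, ← hyi j]; rfl
    have e2 : ((σ (y i / y j) : L) : AlgebraicClosure K) =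
        ((σ (y i) : L) : AlgebraicClosure K) / ((σ (y j) : L) : AlgebraicClosure K) := by
      rw [map_div₀]; rfl
    rw [e1, e2] at hfl
    exact four A.valuation hXle (hD i) hXlt hres' hfl

end Pool.Agent.W2helper51.OP
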