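import Pool.Agent.W2helper9.OP.Stm

/-!
# Project OP (helper9): pieces FLOC and RES
-/

set_option autoImplicit false

open MvPolynomial IsDedekindDomain NumberField Filter

namespace Pool.Agent.W2helper51.OP

open Pool.Agent.W2helper9.OP

/-- Powers of congruent elements are congruent. -/
lemma val_pow_sub {E Γ : Type} [Field E] [LinearOrderedCommGroupWithZero Γ] (ν : Valuation E Γ)
    {x y : E} (hx : ν x ≤ 1) (hy : ν y ≤ 1) (h : ν (x - y) < 1) (n : ℕ) : ν (x ^ n - y ^ n) < 1 := by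
  induction n with
  | zero => simp
  | succ n ih =>
    have e : x ^ (n + 1) - y ^ (n + 1) = x * (x ^ n - y ^ n) + (x - y) * y ^ n := by ring
    rw [e]
    refine lt_of_le_of_lt (ν.map_add _ _) (max_lt ?_ ?_)
    · rw [map_mul]
      exact lt_of_le_of_lt (mul_le_mul' hx le_rfl) (by rwa [one_mul])
    · rw [map_mul, map_pow]
      exact lt_of_le_of_lt (mul_le_mul' le_rfl (pow_le_one' hy n)) (by rwa [mul_one])

theorem p_res : P_RES := by
  intro K _ _ v x hx
  obtain ⟨a, ha⟩ := v.exists_valuation_sub_lt_of_integer (K := K) hx 1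
  rw [Units.val_one] at ha
  have hq : v.valuation K (algebraMap (𝓞 K) K (a ^ (Ideal.absNorm v.asIdeal) - a)) < 1 := by
    rw [HeightOneSpectrum.valuation_lt_one_iff_mem, ← Ideal.Quotient.eq_zero_iff_mem, map_sub,
      map_pow, sub_eq_zero]
    have hm : v.asIdeal.IsMaximal := v.isMaximal
    let _ : Field (𝓞 K ⧸ v.asIdeal) := Ideal.Quotient.field v.asIdeal
    have : Finite (𝓞 K ⧸ v.asIdeal) := Ideal.finiteQuotientOfFreeOfNeBot v.asIdeal v.ne_bot
    have := Fintype.ofFinite (𝓞 K ⧸ v.asIdeal)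
    have h1 : Ideal.absNorm v.asIdeal = Fintype.card (𝓞 K ⧸ v.asIdeal) := by
      rw [Ideal.absNorm_apply, Submodule.cardQuot_apply, Nat.card_eq_fintype_card]
    rw [h1]
    exact FiniteField.pow_card _
  have ha1 : v.valuation K (algebraMap (𝓞 K) K a) ≤ 1 := v.valuation_le_one a
  have h1 := val_pow_sub (v.valuation K) ha1 hx ha (Ideal.absNorm v.asIdeal)
  have e : x ^ (Ideal.absNorm v.asIdeal) - x =
      algebraMap (𝓞 K) K (a ^ (Ideal.absNorm v.asIdeal) - a) + (algebraMap (𝓞 K) K a - x) -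
        (algebraMap (𝓞 K) K a ^ (Ideal.absNorm v.asIdeal) - x ^ (Ideal.absNorm v.asIdeal)) := by
    rw [map_sub, map_pow]; ring
  rw [e]
  refine lt_of_le_of_lt (Valuation.map_sub _ _ _) (max_lt ?_ h1)
  exact lt_of_le_of_lt (Valuation.map_add _ _ _) (max_lt hq ha)

/-- Comparison of a valuation ring and of a valuation on a subfield. -/
lemma lt_one_of {E M Γ : Type} [Field E] [Field M] [LinearOrderedCommGroupWithZero Γ]
    (A : ValuationSubring E) (f : M →+* E) (w : Valuation M Γ)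
    (h : ∀ z : M, f z ∈ A ↔ w z ≤ 1) (z : M) : A.valuation (f z) < 1 ↔ w z < 1 := by
  by_cases hz : z = 0
  · subst hz; simp
  have h1 : f z ≠ 0 := (map_ne_zero f).2 hz
  have h2 := h z⁻¹
  rw [map_inv₀] at h2
  have e1 : A.valuation (f z) < 1 ↔ ¬ (f z)⁻¹ ∈ A := by
    rw [← ValuationSubring.valuation_le_one_iff, map_inv₀, not_le, one_lt_inv₀]
    exact zero_lt_iff.2 ((Valuation.ne_zero_iff _).2 h1)
  have e2 : w z < 1 ↔ ¬ w z⁻¹ ≤ 1 := by
    rw [map_inv₀, not_le, one_lt_inv₀]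
    exact zero_lt_iff.2 ((Valuation.ne_zero_iff _).2 hz)
  rw [e1, e2, h2]

theorem p_floc : P_FLOC := by
  intro K _ _ L _ w A σ q hA hσ x hx
  have hx1 : w.valuation L x ≤ 1 := (hA x).1 hx
  obtain ⟨n, ⟨d, hd⟩, hnd⟩ := w.exists_primeCompl_mul_eq_of_integer (K := L) x hx1
  simp only at hnd
  have hd1 : w.valuation L (algebraMap (𝓞 L) L d) = 1 :=
    (HeightOneSpectrum.valuation_eq_one_iff_notMem (K := L) w).2 hd
  have hsd := hσ d
  have hsn := hσ n
  change w.valuation L (σ (algebraMap (𝓞 L) L d) - (algebraMap (𝓞 L) L d) ^ q) < 1 at hsd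
  change w.valuation L (σ (algebraMap (𝓞 L) L n) - (algebraMap (𝓞 L) L n) ^ q) < 1 at hsn
  have hd2 : w.valuation L (σ (algebraMap (𝓞 L) L d)) = 1 := by
    have h1 : w.valuation L ((algebraMap (𝓞 L) L d) ^ q) = 1 := by rw [map_pow, hd1, one_pow]
    have h2 := Valuation.map_add_eq_of_lt_right (w.valuation L)
      (x := σ (algebraMap (𝓞 L) L d) - (algebraMap (𝓞 L) L d) ^ q) (y := (algebraMap (𝓞 L) L d) ^ q)
      (by rw [h1]; exact hsd)
    rw [sub_add_cancel, h1] at h2
    exact h2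
  have e : (σ x - x ^ q) * σ (algebraMap (𝓞 L) L d) =
      (σ (algebraMap (𝓞 L) L n) - (algebraMap (𝓞 L) L n) ^ q) +
        x ^ q * ((algebraMap (𝓞 L) L d) ^ q - σ (algebraMap (𝓞 L) L d)) := by
    rw [← hnd, map_mul]; ring
  have h3 : w.valuation L (σ x - x ^ q) < 1 := by
    have h4 : w.valuation L ((σ x - x ^ q) * σ (algebraMap (𝓞 L) L d)) < 1 := by
      rw [e]
      refine lt_of_le_of_lt (Valuation.map_add _ _ _) (max_lt hsn ?_)
      rw [map_mul, map_pow, Valuation.map_sub_swap]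
      exact lt_of_le_of_lt (mul_le_mul' (pow_le_one' hx1 q) le_rfl) (by rwa [one_mul])
    rwa [map_mul, hd2, mul_one] at h4
  have h5 := (lt_one_of A (algebraMap L (AlgebraicClosure K)) (w.valuation L) hA (σ x - x ^ q)).2 h3
  rw [map_sub, map_pow] at h5
  exact h5

end Pool.Agent.W2helper51.OP
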